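import Pool.Agent.W5h57.LTreeCubes
import Pool.Agent.W5h57.FreeQ

set_option autoImplicit false

/-!
# Free `ℚ`-groups of rank at least two act freely on no `Λ`-tree (negative answer to Q1)

Definitions: `IsLMetric`, `IsSegment`, `IsLTree` (in `Pool.Agent.W5h57.LTree`), `ActsFreely` (in
`Pool.Agent.W5h57.LTreeCubes`), `IsQGroup`, `IsFreeQGroup` (in `Pool.Agent.W5h57.FreeQ`).

Idea of the proof. Let a group in which every element is a cube act freely on a `Λ`-tree. Suppose
that the axes of `x` and `y` meet in a point `p`, and that `|y| ≤ |x|`; replacing `y` by its inverse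
if necessary, the segment `[p, xp]` is contained in the axes of `x` and of `xy`, and
`|xy| = |x| + |y| ≤ 2 |x|`. If `a³ = x` and `b³ = xy`, then `a` and `b` translate along these axes
by `|x| / 3` and `|xy| / 3`, whose sum is at most `|x|`, so `abp = bap` and `a` and `b` commute. So
`x` and `y` commute. If the axes of `x` and `y` are disjoint, then those of `x` and `xy` meet, and
again `x` and `y` commute. So the group is abelian.
-/

namespace Pool.Agent.Results.MP_c6101b_al.FreeQGroupsNotTreeFree

open Pool.Agent.W5h57.LTree Pool.Agent.W5h57.FreeQ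

universe u v w

/-- There is a free `ℚ`-group on every set `X`, and if `X` has at least two elements, then a free
`ℚ`-group on `X` acts freely on no `Λ`-tree, for any totally ordered abelian group `Λ`. -/
theorem result :
    (∀ X : Type u, ∃ (G : Type u) (_ : Group G) (ι : X → G), IsFreeQGroup ι) ∧
    ∀ (X G : Type u) [Nontrivial X] [Group G] (ι : X → G), IsFreeQGroup ι →
      ∀ (Λ : Type v) [AddCommGroup Λ] [LinearOrder Λ] [IsOrderedAddMonoid Λ]
        (T : Type w) [MulAction G T] (d : T → T → Λ), IsLTree d → ¬ ActsFreely d G := by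
  refine ⟨exists_free, ?_⟩
  intro X G _ _ ι hι Λ _ _ _ T _ d hT hG
  obtain ⟨x, y, hxy⟩ := not_comm hι
  exact hxy (commute_of_cubes hT hG
    (fun g => (hι.qgroup g 3 (by norm_num)).exists) x y)

end Pool.Agent.Results.MP_c6101b_al.FreeQGroupsNotTreeFree
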